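import Pool.Agent.H69.LQ.Lib

/-!
# MP_8f7db2_an, row SG: the first spectral gap
-/

set_option autoImplicit false

open MeasureTheory Metric Set
open scoped ENNReal

namespace Pool.Agent.H77.LQ

open Pool.Agent.H85.LK (E adm lam Ann)
open Pool.Agent.H69.LQ

theorem pf_SG (hMP : T_MP) (hGP : T_GP) : T_SG := by
  intro N g hN hg
  have hprob : IsProbabilityMeasure (mS N) := (hMP N hN).1
  have hav1 : ∀ c : ℝ, av (fun _ : Sp N => c) = c := by
    intro c
    unfold av
    simp
  obtain ⟨m, hm⟩ : ∃ m, m = av (fun θ : Sp N => g (θ : E N)) := ⟨_, rfl⟩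
  have hgB : BM (fun θ : Sp N => g (θ : E N)) :=
    BM_cont (hg.continuous.comp continuous_subtype_val)
  have hg1 : ContDiff ℝ (⊤ : ℕ∞) (fun x : E N => g x - m) := hg.sub contDiff_const
  have hg1B : BM (fun θ : Sp N => g (θ : E N) - m) := hgB.sub (BM_const m)
  have hav0 : av (fun θ : Sp N => g (θ : E N) - m) = 0 := by
    rw [av_sub hgB (BM_const m), hav1, hm, sub_self]
  have h1 := hGP N 1 (fun x => g x - m) hN hg1 (by
    intro Q hQ
    have h2 : Q = MvPolynomial.C (MvPolynomial.coeff 0 Q) :=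
      MvPolynomial.totalDegree_eq_zero_iff_eq_C.1 (by omega)
    have h3 : ∀ θ : Sp N, ev Q (θ : E N) = MvPolynomial.coeff 0 Q := by
      intro θ
      unfold ev
      conv_lhs => rw [h2]
      exact MvPolynomial.eval_C _
    simp only [h3]
    rw [av_mul_const, hav0, zero_mul])
  have h4 : av (fun θ : Sp N => (g (θ : E N) - m) ^ 2) =
      av (fun θ : Sp N => g (θ : E N) ^ 2) - m ^ 2 := by
    have h5 : (fun θ : Sp N => (g (θ : E N) - m) ^ 2) =
        fun θ : Sp N => (g (θ : E N) ^ 2 - (2 * m) * g (θ : E N)) + m ^ 2 := by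
      funext θ
      ring
    rw [h5, av_add ((hgB.pow 2).sub (hgB.const_mul _)) (BM_const _),
      av_sub (hgB.pow 2) (hgB.const_mul _), av_const_mul, hav1, ← hm]
    ring
  have h6 : ∀ x : E N, Gs (fun x => g x - m) x = Gs g x := by
    intro x
    unfold Gs LL
    simp only [fderiv_sub_const]
  simp only [h6] at h1
  rw [h4] at h1
  rw [← hm]
  have h7 : ((1 : ℕ) : ℝ) * (((1 : ℕ) : ℝ) + N - 2) = (N : ℝ) - 1 := by
    push_cast
    ring
  rw [h7] at h1
  exact h1

end Pool.Agent.H77.LQ
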