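import Pool.Agent.H69.LQ.Lib

/-!
# MP_8f7db2_an, row H3: the norm of the part of degree `2` of the functions `α θ_i`
-/

set_option autoImplicit false

open MeasureTheory Metric Set
open scoped ENNReal

namespace Pool.Agent.H77.LQ

open Pool.Agent.H85.LK (E adm lam Ann)
open Pool.Agent.H69.LQ

theorem pf_H3 (_ : T_MP) (hMO : T_MO) (hPY : T_PY) (hQU : T_QU) (hH2 : T_H2) : T_H3 := by
  classical
  intro N hN
  have hN2 : (2 : ℝ) ≤ N := by exact_mod_cast hN
  have hN0 : (N : ℝ) ≠ 0 := by positivity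
  refine ⟨2 * N, by positivity, fun α s hα hs hs1 => ?_⟩
  obtain ⟨hmo0, hmo1, hmo2, -, -⟩ := hMO N hN
  have hav1 : ∀ c : ℝ, av (fun _ : Sp N => c) = c := by
    intro c
    have h := av_const_mul (N := N) c (fun _ => 1)
    rw [hmo0, mul_one] at h
    exact h
  have hco : ∀ j : Fin N, BM (fun θ : Sp N => (θ : E N) j) := fun j => BM_coord j
  obtain ⟨a, ha⟩ : ∃ a, a = av α := ⟨_, rfl⟩
  obtain ⟨b, hb⟩ : ∃ b : Fin N → ℝ, b = fun j => av (fun θ : Sp N => α θ * (θ : E N) j) := ⟨_, rfl⟩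
  have hbj : ∀ j, av (fun θ : Sp N => α θ * (θ : E N) j) = b j := fun j => by rw [hb]
  obtain ⟨α0, hα0⟩ : ∃ α0 : Sp N → ℝ, α0 = fun θ : Sp N => a + ∑ j, (N * b j) * (θ : E N) j := ⟨_, rfl⟩
  have hSB : BM (fun θ : Sp N => ∑ j, (N * b j) * (θ : E N) j) :=
    BM.sum _ fun j _ => (hco j).const_mul _
  have hα0B : BM α0 := by
    rw [hα0]
    exact (BM_const a).add hSB
  -- the mean of a product with `α0`
  have hprod : ∀ F : Sp N → ℝ, BM F → av (fun θ : Sp N => F θ * α0 θ) =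
      av F * a + ∑ j, (N * b j) * av (fun θ : Sp N => F θ * (θ : E N) j) := by
    intro F hF
    have h1 : (fun θ : Sp N => F θ * α0 θ) =
        fun θ : Sp N => F θ * a + ∑ j, (N * b j) * (F θ * (θ : E N) j) := by
      funext θ
      rw [hα0]
      simp only [mul_add, Finset.mul_sum]
      congr 1
      exact Finset.sum_congr rfl fun j _ => by ring
    rw [h1, av_add (hF.mul (BM_const a)) (BM.sum _ fun j _ => (hF.mul (hco j)).const_mul _),
      av_mul_const, av_sum _ fun j _ => (hF.mul (hco j)).const_mul _]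
    congr 1
    exact Finset.sum_congr rfl fun j _ => av_const_mul _ _
  have h01 : av α0 = a := by
    have h1 := hprod (fun _ => 1) (BM_const 1)
    simp only [one_mul] at h1
    rw [h1, hav1, one_mul]
    simp only [hmo1, mul_zero, Finset.sum_const_zero, add_zero]
  have h0j : ∀ j, av (fun θ : Sp N => α0 θ * (θ : E N) j) = b j := by
    intro j
    have h1 := hprod (fun θ : Sp N => (θ : E N) j) (hco j)
    have h2 : (fun θ : Sp N => α0 θ * (θ : E N) j) = fun θ : Sp N => (θ : E N) j * α0 θ := by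
      funext θ
      ring
    rw [h2, h1, hmo1, zero_mul, zero_add]
    simp only [hmo2]
    rw [Finset.sum_eq_single j]
    · rw [if_pos rfl]
      field_simp
    · intro k _ hk
      rw [if_neg (fun h => hk h.symm), mul_zero]
    · intro h
      exact absurd (Finset.mem_univ j) h
  obtain ⟨X, hX⟩ : ∃ X, X = a ^ 2 + N * ∑ j, b j ^ 2 := ⟨_, rfl⟩
  have hX0 : 0 ≤ X := by
    rw [hX]
    have : 0 ≤ ∑ j, b j ^ 2 := Finset.sum_nonneg fun j _ => sq_nonneg _
    positivity
  have hsum : ∑ j, (N * b j) * b j = N * ∑ j, b j ^ 2 := by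
    rw [Finset.mul_sum]
    exact Finset.sum_congr rfl fun j _ => by ring
  have hαα0 : av (fun θ : Sp N => α θ * α0 θ) = X := by
    rw [hprod α hα, ← ha, hX]
    simp only [hbj]
    rw [hsum]
    ring
  have hα00 : av (fun θ : Sp N => α0 θ * α0 θ) = X := by
    rw [hprod α0 hα0B, h01, hX]
    simp only [h0j]
    rw [hsum]
    ring
  -- the difference
  have hdB : BM (fun θ : Sp N => α θ - α0 θ) := hα.sub hα0B
  have hd0 : av (fun θ : Sp N => α θ - α0 θ) = 0 := by
    rw [av_sub hα hα0B, h01, ← ha, sub_self]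
  have hdj : ∀ j, av (fun θ : Sp N => (α θ - α0 θ) * (θ : E N) j) = 0 := by
    intro j
    have h1 : (fun θ : Sp N => (α θ - α0 θ) * (θ : E N) j) =
        fun θ : Sp N => α θ * (θ : E N) j - α0 θ * (θ : E N) j := by
      funext θ
      ring
    rw [h1, av_sub (hα.mul (hco j)) (hα0B.mul (hco j)), h0j, hbj, sub_self]
  have hd2 : av (fun θ : Sp N => (α θ - α0 θ) ^ 2) = av (fun θ : Sp N => α θ ^ 2) - X := by
    have h1 : (fun θ : Sp N => (α θ - α0 θ) ^ 2) =
        fun θ : Sp N => (α θ ^ 2 - 2 * (α θ * α0 θ)) + α0 θ * α0 θ := by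
      funext θ
      ring
    rw [h1, av_add ((hα.pow 2).sub ((hα.mul hα0B).const_mul 2)) (hα0B.mul hα0B),
      av_sub (hα.pow 2) ((hα.mul hα0B).const_mul 2), av_const_mul, hαα0, hα00]
    ring
  have hH2' := hH2 N (fun θ : Sp N => α θ - α0 θ) hN hdB hd0 hdj
  rw [hd2] at hH2'
  -- the terms
  have hterm : ∀ i, n2 (fun θ : Sp N => α θ * (θ : E N) i) ≤
      (1 + s) * n2 (fun θ : Sp N => (α θ - α0 θ) * (θ : E N) i) +
        2 / s * av (fun θ : Sp N => (α0 θ * α0 θ) * (θ : E N) i ^ 2) := by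
    intro i
    have hF : BM (fun θ : Sp N => (α θ - α0 θ) * (θ : E N) i) := hdB.mul (hco i)
    have hG : BM (fun θ : Sp N => α0 θ * (θ : E N) i) := hα0B.mul (hco i)
    have h1 := (abs_le.1 (hQU N _ _ s hN hF hG hs).2.2.1).2
    have h2 : (fun θ : Sp N => (α θ - α0 θ) * (θ : E N) i + α0 θ * (θ : E N) i) =
        fun θ : Sp N => α θ * (θ : E N) i := by
      funext θ
      ring
    rw [h2] at h1
    have h3 := (hPY N _ hN hG).1
    have h4 : (fun θ : Sp N => (α0 θ * (θ : E N) i) ^ 2) =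
        fun θ : Sp N => (α0 θ * α0 θ) * (θ : E N) i ^ 2 := by
      funext θ
      ring
    rw [h4] at h3
    have h5 : 0 ≤ n0 (fun θ : Sp N => α0 θ * (θ : E N) i) := sq_nonneg _
    have h6 : 0 ≤ n1 (fun θ : Sp N => α0 θ * (θ : E N) i) :=
      div_nonneg (Finset.sum_nonneg fun j _ => sq_nonneg _) (by positivity)
    have h7 : 0 ≤ n3 (fun θ : Sp N => α0 θ * (θ : E N) i) := av_sq_nonneg _
    have h7' : 0 ≤ n2 (fun θ : Sp N => α0 θ * (θ : E N) i) :=
      mul_nonneg (by positivity)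
        (Finset.sum_nonneg fun j _ => Finset.sum_nonneg fun k _ => sq_nonneg _)
    have h8 : n2 (fun θ : Sp N => α0 θ * (θ : E N) i) ≤
        av (fun θ : Sp N => (α0 θ * α0 θ) * (θ : E N) i ^ 2) := by
      rw [h3]
      linarith
    have h9 : 1 + 1 / s ≤ 2 / s := by
      have h10 : 1 ≤ 1 / s := by
        rw [le_div_iff₀ hs]
        linarith
      have h11 : 2 / s = 1 / s + 1 / s := by ring
      rw [h11]
      linarith
    have h12 : (1 + 1 / s) * n2 (fun θ : Sp N => α0 θ * (θ : E N) i) ≤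
        2 / s * av (fun θ : Sp N => (α0 θ * α0 θ) * (θ : E N) i ^ 2) :=
      mul_le_mul h9 h8 h7' (by positivity)
    linarith
  have hs2 : ∑ i, av (fun θ : Sp N => (α0 θ * α0 θ) * (θ : E N) i ^ 2) = X := by
    rw [← av_sum _ fun i _ => (hα0B.mul hα0B).mul ((hco i).pow 2), ← hα00]
    congr 1
    funext θ
    rw [← Finset.mul_sum, sum_sq_sp, mul_one]
  have hfin : ∑ i, n2 (fun θ : Sp N => α θ * (θ : E N) i) ≤
      (1 + s) * ∑ i, n2 (fun θ : Sp N => (α θ - α0 θ) * (θ : E N) i) + 2 / s * X := by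
    rw [← hs2, Finset.mul_sum, Finset.mul_sum, ← Finset.sum_add_distrib]
    exact Finset.sum_le_sum fun i _ => hterm i
  have hXle : X ≤ N * (av α ^ 2 + ∑ j, av (fun θ : Sp N => α θ * (θ : E N) j) ^ 2) := by
    simp only [hbj]
    rw [← ha, hX, mul_add]
    have : a ^ 2 ≤ N * a ^ 2 := by nlinarith [sq_nonneg a]
    linarith
  have h13 : 2 / s * X ≤ 2 * N / s * (av α ^ 2 + ∑ j, av (fun θ : Sp N => α θ * (θ : E N) j) ^ 2) := by
    have h14 : 2 / s * X ≤ 2 / s *
        (N * (av α ^ 2 + ∑ j, av (fun θ : Sp N => α θ * (θ : E N) j) ^ 2)) :=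
      mul_le_mul_of_nonneg_left hXle (by positivity)
    refine h14.trans (le_of_eq ?_)
    ring
  have h15 : (1 + s) * ∑ i, n2 (fun θ : Sp N => (α θ - α0 θ) * (θ : E N) i) ≤
      (1 + s) * (3 / ((N : ℝ) + 4)) * av (fun θ : Sp N => α θ ^ 2) := by
    have h16 : 3 / ((N : ℝ) + 4) * (av (fun θ : Sp N => α θ ^ 2) - X) ≤
        3 / ((N : ℝ) + 4) * av (fun θ : Sp N => α θ ^ 2) :=
      mul_le_mul_of_nonneg_left (by linarith) (by positivity)
    rw [mul_assoc]
    exact mul_le_mul_of_nonneg_left (hH2'.trans h16) (by linarith)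
  linarith

end Pool.Agent.H77.LQ
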