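import Pool.Agent.H7.LP.Targets3

/-!
# Row ISQ of the board lpq: isomorphic structures
-/

set_option autoImplicit false

open Set Filter Topology

namespace Pool.Agent.H77.LQ

open Pool.Agent.H7.LP Pool.Agent.H7.LQ

theorem pf_ISQ : T_ISQ := by
  intro G X _ _ _ _ B L M _ Y S x e w w' hc hs hi
  obtain ⟨π, hπ1, hπ2⟩ := hi
  refine ⟨fun i => e (π i), ⟨fun i => hc.node (π i), ?_⟩, ?_⟩
  · intro k m g h N
    obtain ⟨j', hj', h1, h2, hg⟩ :=
      hc.all k m g h (((Finset.range N).sup fun j => π j) + 1)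
    refine ⟨π.symm j', ?_, ?_⟩
    · by_contra hlt
      push Not at hlt
      have h3 : π (π.symm j') ≤ (Finset.range N).sup fun j => π j :=
        Finset.le_sup (f := fun j => π j) (Finset.mem_range.2 hlt)
      rw [Equiv.apply_symm_apply] at h3
      omega
    · show (e (π (π.symm j'))).1 = k ∧ (e (π (π.symm j'))).2.1 = m ∧
        g * ((e (π (π.symm j'))).2.2)⁻¹ ∈ KX B L Y k m x (e (π (π.symm j'))).2.2
      rw [Equiv.apply_symm_apply]
      exact ⟨h1, h2, hg⟩
  · constructor
    · intro i
      rw [hπ1]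
      exact hs.k (π i)
    · intro i
      rw [hπ1]
      exact hs.m (π i)
    · intro i
      rw [hπ1]
      exact hs.y (π i)
    · intro i j
      rw [hπ2]
      exact hs.le (π i) (π j)
    · intro i j p
      rw [hπ2]
      exact hs.q (π i) (π j) p

end Pool.Agent.H77.LQ
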